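import Pool.Agent.Lib.MP_4fbe7c_an.UL.Iface

set_option autoImplicit false

namespace Pool.Agent.Lib.MP_4fbe7c_an.UL.H32

open Set

/-- `(1 - exp (-lam r)) / r`. -/
noncomputable def ph (lam r : ℝ) : ℝ := (1 - Real.exp (-(lam * r))) / r

theorem ph_deriv (lam r : ℝ) (hr : r ≠ 0) :
    HasDerivAt (ph lam) (((lam * Real.exp (-(lam * r))) * r - (1 - Real.exp (-(lam * r)))) / r ^ 2) r := by
  have h1 : HasDerivAt (fun r : ℝ => -(lam * r)) (-lam) r := by
    have h := (hasDerivAt_id r).const_mul (-lam)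
    simp only [id, mul_one, neg_mul] at h
    exact h
  have h2 : HasDerivAt (fun r : ℝ => 1 - Real.exp (-(lam * r))) (lam * Real.exp (-(lam * r))) r := by
    have h := h1.exp.const_sub 1
    have e : -(Real.exp (-(lam * r)) * -lam) = lam * Real.exp (-(lam * r)) := by ring
    rw [e] at h
    exact h
  have h3 := h2.div (hasDerivAt_id r) hr
  simp only [id, mul_one] at h3
  exact h3

theorem exp_low (x : ℝ) (h0 : 0 ≤ x) (h1 : x ≤ 1) : 1 - x ^ 2 / 2 ≤ (1 + x) * Real.exp (-x) := by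
  have h2 := Real.exp_bound' h0 h1 (n := 3) (by norm_num)
  simp only [Finset.sum_range_succ, Finset.sum_range_zero] at h2
  norm_num [Nat.factorial] at h2
  have h3 : (1 - x ^ 2 / 2) * Real.exp x ≤ 1 + x := by
    have h4 : 0 ≤ 1 - x ^ 2 / 2 := by nlinarith
    have h5 := mul_le_mul_of_nonneg_left h2 h4
    have h6 : 0 ≤ x ^ 3 := by positivity
    have h7 : 0 ≤ x ^ 4 := by positivity
    have h8 : 0 ≤ x ^ 5 := by positivity
    nlinarith
  have h4 : Real.exp (-x) * Real.exp x = 1 := by rw [← Real.exp_add]; simp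
  have h5 : 0 < Real.exp (-x) := Real.exp_pos _
  nlinarith [mul_le_mul_of_nonneg_right h3 h5.le]

theorem exp_up (x : ℝ) : (1 + x) * Real.exp (-x) ≤ 1 := by
  have h2 := Real.add_one_le_exp x
  have h4 : Real.exp (-x) * Real.exp x = 1 := by rw [← Real.exp_add]; simp
  have h5 : 0 < Real.exp (-x) := Real.exp_pos _
  nlinarith [mul_le_mul_of_nonneg_right h2 h5.le]

theorem ph_anti (lam : ℝ) : AntitoneOn (ph lam) (Ioc 0 1) := by
  apply antitoneOn_of_deriv_nonpos (convex_Ioc 0 1)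
  · intro r hr
    exact (ph_deriv lam r hr.1.ne').continuousAt.continuousWithinAt
  · intro r hr
    rw [interior_Ioc] at hr
    exact (ph_deriv lam r hr.1.ne').differentiableAt.differentiableWithinAt
  · intro r hr
    rw [interior_Ioc] at hr
    rw [(ph_deriv lam r hr.1.ne').deriv]
    apply div_nonpos_of_nonpos_of_nonneg _ (by positivity)
    have := exp_up (lam * r)
    nlinarith

theorem ph_mono (lam : ℝ) (h0 : 0 ≤ lam) (h1 : lam ≤ 1) :
    MonotoneOn (fun r => ph lam r + lam ^ 2 / 2 * r) (Ioc 0 1) := by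
  have hd : ∀ r : ℝ, r ≠ 0 → HasDerivAt (fun r => ph lam r + lam ^ 2 / 2 * r)
      (((lam * Real.exp (-(lam * r))) * r - (1 - Real.exp (-(lam * r)))) / r ^ 2 + lam ^ 2 / 2) r := by
    intro r hr
    have h2 : HasDerivAt (fun r : ℝ => lam ^ 2 / 2 * r) (lam ^ 2 / 2) r := by
      simpa using (hasDerivAt_id r).const_mul (lam ^ 2 / 2)
    exact (ph_deriv lam r hr).add h2
  apply monotoneOn_of_deriv_nonneg (convex_Ioc 0 1)
  · intro r hr
    exact (hd r hr.1.ne').continuousAt.continuousWithinAt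
  · intro r hr
    rw [interior_Ioc] at hr
    exact (hd r hr.1.ne').differentiableAt.differentiableWithinAt
  · intro r hr
    rw [interior_Ioc] at hr
    rw [(hd r hr.1.ne').deriv]
    have hr2 : 0 < r ^ 2 := by have := hr.1; positivity
    have h3 := exp_low (lam * r) (mul_nonneg h0 hr.1.le) (by nlinarith [hr.1, hr.2])
    rw [div_add' _ _ _ hr2.ne']
    apply div_nonneg _ hr2.le
    nlinarith

/-- The difference of the weights with `κ = 0`. -/
noncomputable def F0 (lam r : ℝ) : ℝ := ph lam r + 1 / 50000 * (r * Real.exp (-(lam * r)))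

theorem exp_diff (lam s r : ℝ) (h0 : 0 ≤ lam) (hs : 0 ≤ s) (hsr : s ≤ r) :
    0 ≤ Real.exp (-(lam * s)) - Real.exp (-(lam * r)) ∧
      Real.exp (-(lam * s)) - Real.exp (-(lam * r)) ≤ lam * (r - s) := by
  have h1 : Real.exp (-(lam * r)) ≤ Real.exp (-(lam * s)) := by
    apply Real.exp_le_exp.2
    nlinarith
  refine ⟨by linarith, ?_⟩
  have h2 : Real.exp (-(lam * r)) = Real.exp (-(lam * s)) * Real.exp (-(lam * (r - s))) := by
    rw [← Real.exp_add]; congr 1; ring
  have h3 : 1 - lam * (r - s) ≤ Real.exp (-(lam * (r - s))) := by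
    have := Real.add_one_le_exp (-(lam * (r - s)))
    linarith
  have h4 : Real.exp (-(lam * s)) ≤ 1 := Real.exp_le_one_iff.2 (by nlinarith)
  have h5 : 0 < Real.exp (-(lam * s)) := Real.exp_pos _
  have h6 : 0 ≤ lam * (r - s) := mul_nonneg h0 (by linarith)
  rw [h2]
  nlinarith

theorem exp_one (lam r : ℝ) (h0 : 0 ≤ lam) (hr : 0 ≤ r) :
    1 - lam * r ≤ Real.exp (-(lam * r)) ∧ Real.exp (-(lam * r)) ≤ 1 := by
  constructor
  · have := Real.add_one_le_exp (-(lam * r))
    linarith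
  · exact Real.exp_le_one_iff.2 (by nlinarith)

theorem F0_diff (lam s r : ℝ) (h1 : 1 / 1000 ≤ lam) (h2 : lam ≤ 1 / 500) (hs : 0 < s) (hsr : s ≤ r)
    (hr : r ≤ 1) :
    17 / 1000000 * (r - s) ≤ F0 lam r - F0 lam s ∧ F0 lam r - F0 lam s ≤ 1 / 50000 * (r - s) := by
  have ha := ph_anti lam (mem_Ioc.2 ⟨hs, hsr.trans hr⟩) (mem_Ioc.2 ⟨hs.trans_le hsr, hr⟩) hsr
  have hm := ph_mono lam (by linarith) (by linarith) (mem_Ioc.2 ⟨hs, hsr.trans hr⟩)
    (mem_Ioc.2 ⟨hs.trans_le hsr, hr⟩) hsr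
  simp only at hm
  obtain ⟨e1, e2⟩ := exp_diff lam s r (by linarith) hs.le hsr
  obtain ⟨e3, e4⟩ := exp_one lam r (by linarith) (by linarith)
  have hl : lam ^ 2 ≤ 1 / 250000 := by nlinarith
  have hg1 : r * Real.exp (-(lam * r)) - s * Real.exp (-(lam * s)) ≤ r - s := by
    nlinarith [mul_nonneg hs.le e1, mul_nonneg (sub_nonneg.2 hsr) (sub_nonneg.2 e4)]
  have hg2 : (1 - 2 * lam) * (r - s) ≤ r * Real.exp (-(lam * r)) - s * Real.exp (-(lam * s)) := by
    have h5 : s * (Real.exp (-(lam * s)) - Real.exp (-(lam * r))) ≤ 1 * (lam * (r - s)) :=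
      mul_le_mul (by linarith) e2 e1 (by norm_num)
    have h6 : (r - s) * (1 - lam) ≤ (r - s) * Real.exp (-(lam * r)) := by
      apply mul_le_mul_of_nonneg_left _ (by linarith)
      nlinarith
    nlinarith
  have hd : 0 ≤ r - s := by linarith
  unfold F0
  constructor
  · nlinarith [mul_nonneg (sub_nonneg.2 hl) hd, mul_nonneg (sub_nonneg.2 h2) hd]
  · nlinarith

theorem F0_bd (lam r : ℝ) (h1 : 1 / 1000 ≤ lam) (h2 : lam ≤ 1 / 500) (hr : 0 < r) (hr1 : r ≤ 1) :
    lam ≤ F0 lam r ∧ F0 lam r ≤ lam + 1 / 50000 * r := by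
  obtain ⟨e3, e4⟩ := exp_one lam r (by linarith) hr.le
  have hl : lam ^ 2 ≤ 1 / 250000 := by nlinarith
  have h3 : ph lam r ≤ lam := by
    unfold ph
    rw [div_le_iff₀ hr]
    linarith
  have h4 : lam - lam ^ 2 * r / 2 ≤ ph lam r := by
    unfold ph
    rw [le_div_iff₀ hr]
    have h5 := Real.quadratic_le_exp_of_nonneg (x := lam * r) (by positivity)
    have h6 : Real.exp (-(lam * r)) * Real.exp (lam * r) = 1 := by rw [← Real.exp_add]; simp
    have h7 : 0 < Real.exp (-(lam * r)) := Real.exp_pos _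
    have h8 : Real.exp (-(lam * r)) * (1 + lam * r + (lam * r) ^ 2 / 2) ≤ 1 := by
      exact (mul_le_mul_of_nonneg_left h5 h7.le).trans h6.le
    set x := lam * r with hx
    have hx0 : 0 ≤ x := by positivity
    have h9 : Real.exp (-x) ≤ 1 - x + x ^ 2 / 2 := by
      have h10 : 1 ≤ (1 - x + x ^ 2 / 2) * (1 + x + x ^ 2 / 2) := by nlinarith [sq_nonneg (x ^ 2)]
      have h11 : 0 < 1 + x + x ^ 2 / 2 := by positivity
      by_contra hc
      push Not at hc
      nlinarith
    have h12 : (lam - lam ^ 2 * r / 2) * r = x - x ^ 2 / 2 := by rw [hx]; ring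
    rw [h12]
    linarith
  unfold F0
  constructor
  · nlinarith [mul_nonneg (sub_nonneg.2 hl) hr.le, mul_nonneg hr.le (sub_nonneg.2 e3),
      mul_nonneg hr.le (sub_nonneg.2 hr1), mul_nonneg (sub_nonneg.2 h2) hr.le,
      mul_nonneg (mul_nonneg (sub_nonneg.2 h2) hr.le) (sub_nonneg.2 hr1)]
  · nlinarith

theorem etaf_eq (c : ℕ) (r : ℕ → ℝ) (lam : ℝ) (k : ℕ) (hk : 1 ≤ k) (hr : r k ≠ 0) :
    etaf c r lam k = F0 lam (r k) + kap c k * Real.exp (-(lam * r k)) := by
  unfold etaf Qk F0 ph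
  rw [if_neg (by omega)]
  field_simp
  ring

theorem eta : EtaStatement := by
  intro n c r lam hR h1 h2
  have hlt : ∀ k, 1 ≤ k → k ≤ n + 1 → r k < 1 := by
    intro k hk
    induction k, hk using Nat.le_induction with
    | base => intro _; exact hR.r1
    | succ k hk ih =>
      intro hk2
      exact (hR.ranti k (by omega)).trans_lt (ih (by omega))
  have hF : ∀ k, 1 ≤ k → k ≤ n → etaf c r lam k = F0 lam (r k) + kap c k * Real.exp (-(lam * r k)) :=
    fun k hk hkn => etaf_eq c r lam k hk (hR.rpos k hkn).ne'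
  have hbd : ∀ k, 1 ≤ k → k ≤ n → lam ≤ F0 lam (r k) ∧ F0 lam (r k) ≤ lam + 1 / 50000 * r k :=
    fun k hk hkn => F0_bd lam (r k) h1 h2 (hR.rpos k hkn) (hlt k hk (by omega)).le
  have hdf : ∀ k, 1 ≤ k → k < n → 17 / 1000000 * (r k - r (k + 1)) ≤ F0 lam (r k) - F0 lam (r (k + 1)) ∧
      F0 lam (r k) - F0 lam (r (k + 1)) ≤ 1 / 50000 * (r k - r (k + 1)) :=
    fun k hk hkn => F0_diff lam (r (k + 1)) (r k) h1 h2 (hR.rpos (k + 1) (by omega))
      (hR.ranti k (by omega)) (hlt k hk (by omega)).le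
  have hex : ∀ k, 1 ≤ k → k ≤ n → 1 - lam ≤ Real.exp (-(lam * r k)) ∧ Real.exp (-(lam * r k)) ≤ 1 := by
    intro k hk hkn
    obtain ⟨e3, e4⟩ := exp_one lam (r k) (by linarith) (hR.rpos k hkn).le
    refine ⟨?_, e4⟩
    nlinarith [hlt k hk (by omega)]
  have hout : ∀ k, c < k → k ≤ n → etaf c r lam k = F0 lam (r k) := by
    intro k hk hkn
    rw [hF k (by omega) hkn, kap, if_neg (by omega)]
    ring
  have hin : ∀ k, 1 ≤ k → k ≤ c → etaf c r lam k = F0 lam (r k) + 1 / 125 * Real.exp (-(lam * r k)) := by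
    intro k hk hkc
    rw [hF k hk (hkc.trans hR.cn), kap, if_pos hkc]
  have hetac : 1 ≤ c → c < n → 79 / 10000 ≤ etaf c r lam c - etaf c r lam (c + 1) := by
    intro hc hcn
    rw [hin c hc le_rfl, hout (c + 1) (by omega) (by omega)]
    have h3 := (hdf c hc hcn).1
    have h4 := hR.ranti c (by omega)
    have h5 := (hex c hc hcn.le).1
    nlinarith
  refine ⟨hR, h1, h2, ?_, ?_, ?_, ?_, ?_, hetac⟩
  · simp [etaf]
  · intro k hk hkn
    have h3 := hbd k hk hkn
    have h4 := hR.rpos k hkn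
    have h5 := hlt k hk (by omega)
    have h6 := hex k hk hkn
    rcases Nat.lt_or_ge c k with h | h
    · rw [hout k h hkn]
      constructor <;> nlinarith
    · rw [hin k hk h]
      constructor <;> nlinarith
  · intro k hk hkn
    have h3 := (hdf k hk hkn).1
    have h4 := hR.ranti k (by omega)
    rcases Nat.lt_or_ge c k with h | h
    · rw [hout k h hkn.le, hout (k + 1) (by omega) (by omega)]
      nlinarith
    · rcases Nat.lt_or_ge k c with h5 | h5
      · rw [hin k hk h, hin (k + 1) (by omega) (by omega)]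
        have h6 := (exp_diff lam (r (k + 1)) (r k) (by linarith) (hR.rpos (k + 1) (by omega)).le h4).2
        nlinarith [mul_nonneg (sub_nonneg.2 h2) (sub_nonneg.2 h4)]
      · have h7 : k = c := le_antisymm h h5
        subst h7
        have := hetac hk hkn
        linarith
  · intro k hk hkn
    rw [hout k hk hkn]
    exact hbd k (by omega) hkn
  · intro k hk hkn
    rw [hout k hk hkn.le, hout (k + 1) (by omega) (by omega)]
    exact hdf k (by omega) hkn

end Pool.Agent.Lib.MP_4fbe7c_an.UL.H32
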